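import Pool.Agent.Helper46.NB.Stmts
import Pool.Agent.Helper25.LR.F

/-! # NB: the bound for list edge colourings in terms of the maximum degree -/

set_option autoImplicit false

namespace Pool.Agent.Helper8.NB

open Finset Pool.Agent.Helper46.NB Pool.Agent.Helper15.LR
open scoped Classical

noncomputable section

theorem dg_pos {V : Type} [Fintype V] {F : Set (Sym2 V)} {a b : V} (h : s(a, b) ∈ F) :
    0 < dg F a :=
  card_pos.2 ⟨b, Pool.Agent.Helper25.LR.mem_nb.2 h⟩

theorem deg_le {V : Type} [Fintype V] (F : Set (Sym2 V)) (v : V) :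
    #(F.toFinset.filter fun e => v ∈ e) ≤ dg F v := by
  have h1 : (F.toFinset.filter fun e => v ∈ e) ⊆ (nb F v).image (fun u => s(v, u)) := by
    intro e he
    rw [mem_filter, Set.mem_toFinset] at he
    obtain ⟨u, hu⟩ := he.2
    rw [mem_image]
    refine ⟨u, ?_, hu.symm⟩
    rw [Pool.Agent.Helper25.LR.mem_nb, ← hu]
    exact he.1
  exact (card_le_card h1).trans card_image_le

/-- The case `D = 1`. -/
theorem one {V : Type} [Fintype V] (F : Set (Sym2 V)) (L : Sym2 V → Finset ℕ)
    (hd : ∀ v, dg F v ≤ 1) (hL : ∀ e ∈ F, 1 ≤ #(L e)) : LC F L := by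
  have hne : ∀ e ∈ F, (L e).Nonempty := fun e he => card_pos.1 (hL e he)
  refine ⟨fun e => if h : e ∈ F then (hne e h).choose else 0, ?_, ?_⟩
  · intro e he
    simp only [he, dif_pos]
    exact (hne e he).choose_spec
  · intro u v w huv huw hvw
    exfalso
    have h1 : ({v, w} : Finset V) ⊆ nb F u := by
      intro x hx
      rw [mem_insert, mem_singleton] at hx
      rw [Pool.Agent.Helper25.LR.mem_nb]
      rcases hx with rfl | rfl
      · exact huv
      · exact huw
    have h2 := card_le_card h1
    rw [card_pair hvw] at h2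
    have h3 := hd u
    unfold dg at h3
    omega

theorem st_BND (hI : ST_ITER) : ST_BND := by
  intro V _ F D L hF hd hL
  rcases Nat.lt_or_ge D 2 with hD | hD
  · rcases Nat.lt_or_ge D 1 with hD0 | hD1
    · -- no edges
      have hD0' : D = 0 := by omega
      subst hD0'
      apply Pool.Agent.Helper25.LR.LC_greedy
      intro a b hab
      have h1 := dg_pos hab
      have h2 := hd a
      omega
    · have hD1' : D = 1 := by omega
      subst hD1'
      apply one F L hd
      intro e he
      have h1 := hL e he
      have h2 : (0 : ℝ) ≤ 10 ^ 6 * Real.sqrt ((1 : ℕ) : ℝ) * Real.log ((1 : ℕ) : ℝ) ^ 2 := by positivity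
      have h3 : ((1 : ℕ) : ℝ) ≤ (#(L e) : ℝ) := by linarith
      exact_mod_cast h3
  · set x : ℝ := 10 ^ 6 * Real.sqrt D * Real.log D ^ 2 with hx
    have hx0 : 0 ≤ x := by positivity
    rcases le_or_gt (D : ℝ) x with hxD | hxD
    · apply Pool.Agent.Helper25.LR.LC_greedy
      intro a b hab
      have h1 := hL _ hab
      have h2 := hd a
      have h3 := hd b
      have h4 : ((D + D : ℕ) : ℝ) ≤ (#(L s(a, b)) : ℝ) := by
        push_cast
        linarith
      have h5 : D + D ≤ #(L s(a, b)) := by exact_mod_cast h4
      omega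
    · -- large degrees
      have hDr : (2 : ℝ) ≤ D := by exact_mod_cast hD
      have hlog : (1 / 2 : ℝ) ≤ Real.log D := by
        have h1 : Real.log 2 ≤ Real.log D := Real.log_le_log (by norm_num) hDr
        have h2 := Real.log_two_gt_d9
        linarith
      have hsq : (10 : ℝ) ^ 3 ≤ Real.sqrt D := by
        have h1 : Real.sqrt D * Real.sqrt D = D := Real.mul_self_sqrt (by linarith)
        have h2 : (1 / 4 : ℝ) ≤ Real.log D ^ 2 := by nlinarith
        have h3 : 0 < Real.sqrt D := Real.sqrt_pos.2 (by linarith)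
        by_contra hcon
        push Not at hcon
        have h4 : Real.sqrt D * Real.sqrt D ≤ 10 ^ 3 * Real.sqrt D :=
          mul_le_mul_of_nonneg_right hcon.le h3.le
        have h5 : 10 ^ 6 * Real.sqrt D * (1 / 4) ≤ x := by
          rw [hx]
          exact mul_le_mul_of_nonneg_left h2 (by positivity)
        rw [h1] at h4
        have h6 : 10 ^ 6 * Real.sqrt D * (1 / 4) < 10 ^ 3 * Real.sqrt D :=
          lt_of_le_of_lt h5 (lt_of_lt_of_le hxD h4)
        nlinarith
      have hD6 : 10 ^ 6 ≤ D := by
        have h1 : Real.sqrt D * Real.sqrt D = D := Real.mul_self_sqrt (by linarith)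
        have h2 : (10 : ℝ) ^ 6 ≤ D := by
          rw [← h1]
          calc (10 : ℝ) ^ 6 = 10 ^ 3 * 10 ^ 3 := by norm_num
            _ ≤ _ := mul_le_mul hsq hsq (by positivity) (Real.sqrt_nonneg _)
        exact_mod_cast h2
      set l : ℕ := ⌈(D : ℝ) + x⌉₊ with hl
      have hl1 : (D : ℝ) + x ≤ l := Nat.le_ceil _
      have hl2 : l ≤ 2 * D := by
        rw [hl, Nat.ceil_le]
        push_cast
        linarith
      have hl3 : ∀ e ∈ F, l ≤ #(L e) := fun e he => Nat.ceil_le.2 (hL e he)
      have hex : ∀ e : Sym2 V, ∃ s : Finset ℕ, s ⊆ L e ∧ (e ∈ F → #s = l) := by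
        intro e
        by_cases he : e ∈ F
        · obtain ⟨s, hs1, hs2⟩ := exists_subset_card_eq (hl3 e he)
          exact ⟨s, hs1, fun _ => hs2⟩
        · exact ⟨∅, empty_subset _, fun h => absurd h he⟩
      choose L' hL'1 hL'2 using hex
      have hSt : St F.toFinset L' l D D := by
        refine ⟨?_, ?_, ?_, ?_⟩
        · intro e he
          rw [Set.mem_toFinset] at he
          revert he
          refine Sym2.ind (fun a b => ?_) e
          intro he hdiag
          rw [Sym2.mk_isDiag_iff] at hdiag
          subst hdiag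
          exact hF a he
        · intro e he
          rw [Set.mem_toFinset] at he
          exact hL'2 e he
        · intro v c
          refine le_trans (card_le_card ?_) ((deg_le F v).trans (hd v))
          intro e he
          unfold T at he
          rw [mem_filter] at he ⊢
          exact ⟨he.1, he.2.1⟩
        · intro v
          exact (deg_le F v).trans (hd v)
      obtain ⟨f, hf1, hf2⟩ := hI D hD6 l D V F.toFinset L' hSt (by omega) le_rfl hl2 hl1
      refine ⟨f, fun e he => hL'1 e (hf1 e (Set.mem_toFinset.2 he)), ?_⟩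
      intro u v w huv huw hvw
      refine hf2 _ (Set.mem_toFinset.2 huv) _ (Set.mem_toFinset.2 huw) ⟨?_, u, ?_, ?_⟩
      · intro h
        exact hvw (Sym2.congr_right.1 h)
      · exact Sym2.mem_mk_left u v
      · exact Sym2.mem_mk_left u w

end

end Pool.Agent.Helper8.NB
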